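import Pool.Agent.helper22.FI3.SpecCQ

set_option autoImplicit false

namespace Pool.Agent.FI3

open Pool.Agent.helper58.DC Pool.Agent.DI Pool.Agent.GR Pool.Agent.OB Pool.Agent.DR Pool.Agent.FI

theorem JMG (hJPR : JPR_stmt) : JMG_stmt := by
  classical
  intro p _ G Gb _ _ _ _ L Z π hQ g hg
  let _ : Fintype G := Fintype.ofFinite G
  let _ : Fintype Gb := Fintype.ofFinite Gb
  let q : G → Gb := fun x => if h : x ∈ L then π ⟨x, h⟩ else 1
  have hq : ∀ (x : G) (h : x ∈ L), q x = π ⟨x, h⟩ := fun x h => dif_pos h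
  let K : Finset G := Finset.univ.filter fun x => ∃ l ∈ L, l * g * l⁻¹ = x
  have hK : ∀ x, x ∈ K ↔ ∃ l ∈ L, l * g * l⁻¹ = x := fun x => by simp [K]
  have hKL : ∀ x ∈ K, x ∈ L := by
    intro x hx
    obtain ⟨l, hl, rfl⟩ := (hK x).1 hx
    exact L.mul_mem (L.mul_mem hl hg) (L.inv_mem hl)
  have qc : ∀ a ∈ L, ∀ x ∈ L, q (a * x * a⁻¹) = q a * q x * (q a)⁻¹ := by
    intro a ha x hx
    rw [hq _ (L.mul_mem (L.mul_mem ha hx) (L.inv_mem ha)), hq a ha, hq x hx, ← map_inv, ← map_mul, ← map_mul]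
    rfl
  have Kc : ∀ a ∈ L, ∀ x ∈ K, a * x * a⁻¹ ∈ K := by
    intro a ha x hx
    obtain ⟨l, hl, rfl⟩ := (hK x).1 hx
    exact (hK _).2 ⟨a * l, L.mul_mem ha hl, by group⟩
  have hgK : g ∈ K := (hK g).2 ⟨1, L.one_mem, by group⟩
  have hqg : q g = π ⟨g, hg⟩ := hq g hg
  have hfib : ∀ y ∈ conjugatesOf (q g), (K.filter fun x => q x = y).card = (K.filter fun x => q x = q g).card := by
    intro y hy
    obtain ⟨c, hc⟩ := isConj_iff.1 hy
    obtain ⟨⟨a, ha⟩, rfl⟩ := hQ.sur c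
    rw [← hq a ha] at hc
    have hai : a⁻¹ ∈ L := L.inv_mem ha
    have hqi : q a⁻¹ = (q a)⁻¹ := by
      rw [hq _ hai, hq a ha, ← map_inv]
      rfl
    refine Finset.card_nbij' (fun x => a⁻¹ * x * a) (fun x => a * x * a⁻¹) ?_ ?_ ?_ ?_
    · intro x hx
      have hx' := Finset.mem_filter.1 (Finset.mem_coe.1 hx)
      refine Finset.mem_coe.2 (Finset.mem_filter.2 ⟨?_, ?_⟩)
      · have h1 := Kc a⁻¹ hai x hx'.1
        rwa [inv_inv] at h1
      · have h1 := qc a⁻¹ hai x (hKL x hx'.1)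
        rw [inv_inv, hqi, inv_inv, hx'.2, ← hc] at h1
        show q (a⁻¹ * x * a) = q g
        rw [h1]
        group
    · intro x hx
      have hx' := Finset.mem_filter.1 (Finset.mem_coe.1 hx)
      refine Finset.mem_coe.2 (Finset.mem_filter.2 ⟨Kc a ha x hx'.1, ?_⟩)
      show q (a * x * a⁻¹) = y
      rw [qc a ha x (hKL x hx'.1), hx'.2, hc]
    · intro x _
      show a * (a⁻¹ * x * a) * a⁻¹ = x
      group
    · intro x _
      show a⁻¹ * (a * x * a⁻¹) * a = x
      group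
  have hmaps : ∀ x ∈ K, q x ∈ Finset.univ.filter fun y => y ∈ conjugatesOf (q g) := by
    intro x hx
    obtain ⟨l, hl, rfl⟩ := (hK x).1 hx
    refine Finset.mem_filter.2 ⟨Finset.mem_univ _, ?_⟩
    rw [qc l hl g hg]
    exact isConj_iff.2 ⟨q l, rfl⟩
  refine ⟨(K.filter fun x => q x = q g).card, ?_, ?_, ?_⟩
  · exact Finset.card_pos.2 ⟨g, Finset.mem_filter.2 ⟨hgK, rfl⟩⟩
  · intro hreg
    have h1 : (K.filter fun x => q x = q g) = {g} := by
      ext x
      rw [Finset.mem_filter, Finset.mem_singleton]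
      constructor
      · rintro ⟨hx, hxq⟩
        have hxL := hKL x hx
        obtain ⟨l, hl, hlx⟩ := (hK x).1 hx
        have hz : x * g⁻¹ ∈ Z := by
          have h2 : x * g⁻¹ ∈ L := L.mul_mem hxL (L.inv_mem hg)
          refine (hQ.ker ⟨x * g⁻¹, h2⟩).1 ?_
          have h3 : (⟨x * g⁻¹, h2⟩ : L) = ⟨x, hxL⟩ * ⟨g, hg⟩⁻¹ := rfl
          rw [h3, map_mul, map_inv, ← hq x hxL, ← hq g hg, hxq, mul_inv_cancel]
        have h4 := ((hJPR p G Gb L Z π hQ).2 g hg hreg).2.2 l hl (x * g⁻¹) hz (by rw [hlx]; group)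
        exact mul_inv_eq_one.1 h4
      · rintro rfl
        exact ⟨hgK, rfl⟩
    rw [h1, Finset.card_singleton]
  · intro f
    have e1 : ∑ᶠ x, cls L g x * infl π f x = ∑ x ∈ K, f (q x) := by
      rw [finsum_eq_sum_of_fintype, Finset.sum_filter]
      refine Finset.sum_congr rfl fun x _ => ?_
      by_cases h1 : ∃ l ∈ L, l * g * l⁻¹ = x
      · rw [if_pos h1]
        have h2 : x ∈ L := hKL x ((hK x).2 h1)
        rw [infl_mem π f h2, hq x h2]
        unfold cls
        rw [if_pos h1, one_mul]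
      · rw [if_neg h1]
        unfold cls
        rw [if_neg h1, zero_mul]
    have e2 : ∑ᶠ y ∈ conjugatesOf (q g), f y = ∑ y ∈ Finset.univ.filter (fun y => y ∈ conjugatesOf (q g)), f y := by
      rw [finsum_mem_def, finsum_eq_sum_of_fintype, Finset.sum_filter]
      refine Finset.sum_congr rfl fun y _ => ?_
      rw [Set.indicator_apply]
    unfold cc omega
    rw [e1, ← hqg, e2, ← Finset.sum_fiberwise_of_maps_to hmaps, infl_mem π f L.one_mem]
    have e3 : π ⟨1, L.one_mem⟩ = 1 := map_one π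
    rw [e3, mul_div_assoc', Finset.mul_sum]
    congr 1
    refine Finset.sum_congr rfl fun y hy => ?_
    rw [← hfib y (Finset.mem_filter.1 hy).2, Finset.card_eq_sum_ones, Nat.cast_sum, Finset.sum_mul]
    refine Finset.sum_congr rfl fun x hx => ?_
    rw [(Finset.mem_filter.1 hx).2, Nat.cast_one, one_mul]

end Pool.Agent.FI3
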