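import Pool.Agent.helper58.FI3.SpecF3

set_option autoImplicit false

namespace Pool.Agent.FI3

open Pool.Agent.helper58.DC Pool.Agent.DI Pool.Agent.GR Pool.Agent.OB Pool.Agent.DR Pool.Agent.FI

section FFS3aux

variable {G : Type} [Group G]

theorem FFS3_cc (a b : G) (hab : a * b = 1) (P : Subgroup G) : cjS a (cjS b P) = P := by
  ext x
  rw [mem_cjS, mem_cjS]
  have hb : b = a⁻¹ := eq_inv_of_mul_eq_one_right hab
  have h : b⁻¹ * (a⁻¹ * x * a) * b = x := by
    rw [hb]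
    group
  rw [h]

theorem FFS3_fwd (p : ℕ) (D L Z : Subgroup G) (g : G) (hZ : cjS g Z = Z) (C : Finset (Subgroup G)) (h : NCh p L Z C)
    (hD : ∀ Q ∈ C, cjS g Q ≤ D) : PCh p D Z (chainMap (MulAut.conj g) C) := by
  classical
  refine ⟨?_, ?_, ?_, ?_, ?_⟩
  · intro A hA B hB _
    have hA' := Finset.mem_coe.1 hA
    have hB' := Finset.mem_coe.1 hB
    unfold chainMap at hA' hB'
    obtain ⟨Q, hQ, rfl⟩ := Finset.mem_image.1 hA'
    obtain ⟨R, hR, rfl⟩ := Finset.mem_image.1 hB'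
    rcases h.ch.chain.total (Finset.mem_coe.2 hQ) (Finset.mem_coe.2 hR) with h1 | h1
    · exact Or.inl (Subgroup.map_mono h1)
    · exact Or.inr (Subgroup.map_mono h1)
  · unfold chainMap
    exact Finset.mem_image.2 ⟨Z, h.ch.mem, hZ⟩
  · intro Q hQ
    unfold chainMap at hQ
    obtain ⟨Q', hQ', rfl⟩ := Finset.mem_image.1 hQ
    have h1 : cjS g Z ≤ cjS g Q' := Subgroup.map_mono (h.ch.bot Q' hQ')
    rw [hZ] at h1
    exact h1
  · intro Q hQ
    unfold chainMap at hQ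
    obtain ⟨Q', hQ', rfl⟩ := Finset.mem_image.1 hQ
    exact hD Q' hQ'
  · intro Q hQ
    unfold chainMap at hQ
    obtain ⟨Q', hQ', rfl⟩ := Finset.mem_image.1 hQ
    exact (h.ch.pg Q' hQ').map _

theorem FFS3_bwd (p : ℕ) (D L Z : Subgroup G) (hcom : ∀ c ∈ D, ∀ d ∈ D, c * d = d * c) (hDL : D ≤ L) (a g : G)
    (hga : g * a = 1) (hZ : cjS a Z = Z) (hL : cjS a L = L)
    (C : Finset (Subgroup G)) (h : PCh p D Z C) :
    NCh p L Z (chainMap (MulAut.conj a) C) ∧ ∀ Q ∈ chainMap (MulAut.conj a) C, cjS g Q ≤ D := by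
  classical
  refine ⟨⟨⟨?_, ?_, ?_, ?_, ?_⟩, ?_⟩, ?_⟩
  · intro A hA B hB _
    have hA' := Finset.mem_coe.1 hA
    have hB' := Finset.mem_coe.1 hB
    unfold chainMap at hA' hB'
    obtain ⟨Q, hQ, rfl⟩ := Finset.mem_image.1 hA'
    obtain ⟨R, hR, rfl⟩ := Finset.mem_image.1 hB'
    rcases h.chain.total (Finset.mem_coe.2 hQ) (Finset.mem_coe.2 hR) with h1 | h1
    · exact Or.inl (Subgroup.map_mono h1)
    · exact Or.inr (Subgroup.map_mono h1)
  · unfold chainMap
    exact Finset.mem_image.2 ⟨Z, h.mem, hZ⟩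
  · intro Q hQ
    unfold chainMap at hQ
    obtain ⟨Q', hQ', rfl⟩ := Finset.mem_image.1 hQ
    have h1 : cjS a Z ≤ cjS a Q' := Subgroup.map_mono (h.bot Q' hQ')
    rw [hZ] at h1
    exact h1
  · intro Q hQ
    unfold chainMap at hQ
    obtain ⟨Q', hQ', rfl⟩ := Finset.mem_image.1 hQ
    have h1 : cjS a Q' ≤ cjS a L := Subgroup.map_mono ((h.le Q' hQ').trans hDL)
    rw [hL] at h1
    exact h1
  · intro Q hQ
    unfold chainMap at hQ
    obtain ⟨Q', hQ', rfl⟩ := Finset.mem_image.1 hQ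
    exact (h.pg Q' hQ').map _
  · intro Q hQ R hR _ r hr
    unfold chainMap at hQ hR
    obtain ⟨Q', hQ', rfl⟩ := Finset.mem_image.1 hQ
    obtain ⟨R', hR', rfl⟩ := Finset.mem_image.1 hR
    have hr1 : a⁻¹ * r * a ∈ R' := mem_cjS.1 hr
    have hc : ∀ q ∈ cjS a Q', r * q = q * r := by
      intro q hq
      have hq1 : a⁻¹ * q * a ∈ Q' := mem_cjS.1 hq
      have h1 := hcom _ (h.le R' hR' hr1) _ (h.le Q' hQ' hq1)
      have h2 : r * q = a * ((a⁻¹ * r * a) * (a⁻¹ * q * a)) * a⁻¹ := by group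
      have h3 : q * r = a * ((a⁻¹ * q * a) * (a⁻¹ * r * a)) * a⁻¹ := by group
      rw [h2, h3, h1]
    refine Subgroup.mem_normalizer_iff.2 fun y => ⟨fun hy => ?_, fun hy => ?_⟩
    · have h1 := hc y hy
      have h2 : r * y * r⁻¹ = y := by
        rw [h1]
        group
      rw [h2]
      exact hy
    · have h1 := hc _ hy
      have h2 : y = r * y * r⁻¹ := by
        have h3 : r * y = r * y * r⁻¹ * r := by group
        have h4 : r * (r * y * r⁻¹) = r * y := h1.trans h3.symm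
        exact (mul_left_cancel h4).symm
      rw [h2]
      exact hy
  · intro Q hQ
    unfold chainMap at hQ
    obtain ⟨Q', hQ', rfl⟩ := Finset.mem_image.1 hQ
    have h1 : cjS g (cjS a Q') = Q' := FFS3_cc g a hga Q'
    exact le_of_eq_of_le h1 (h.le Q' hQ')

theorem FFS3_map_sing (g : G) (Z : Subgroup G) (hZ : cjS g Z = Z) :
    chainMap (MulAut.conj g) ({Z} : Finset (Subgroup G)) = {Z} := by
  classical
  unfold chainMap
  rw [Finset.image_singleton]
  exact congrArg (fun X : Subgroup G => ({X} : Finset (Subgroup G))) hZ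

theorem FFS3_inv (hNM : NM_stmt) [Finite G] (a b : G) (hab : a * b = 1) (C : Finset (Subgroup G)) :
    chainMap (MulAut.conj a) (chainMap (MulAut.conj b) C) = C := by
  have h1 := (hNM G (MulAut.conj a) C).2.2.2.2.1 (MulAut.conj b)
  rw [← h1, ← map_mul, hab, map_one]
  exact (hNM G 1 C).2.2.2.2.2.1

theorem FFS3_finsum {α M : Type} [Fintype α] [AddCommMonoid M] (P : α → Prop) [DecidablePred P] (h : α → M) :
    ∑ᶠ x ∈ {x | P x}, h x = ∑ x, if P x then h x else 0 := by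
  rw [finsum_mem_def, finsum_eq_sum_of_fintype]
  refine Finset.sum_congr rfl fun x _ => ?_
  by_cases hx : P x
  · rw [Set.indicator_of_mem (show x ∈ {x | P x} from hx), if_pos hx]
  · rw [Set.indicator_of_notMem (show x ∉ {x | P x} from hx), if_neg hx]

end FFS3aux

theorem FFS3 (hFNC3 : FNC3_stmt) (hFTG3 : FTG3_stmt) (hFZC3 : FZC3_stmt) (hNM : NM_stmt) : FFS3_stmt := by
  classical
  intro p M hS G _ _ D x θ χ hL P hP hSg
  have _ : Fact p.Prime := ⟨hS.pr⟩
  let _ : Fintype G := Fintype.ofFinite G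
  let _ : Fintype (Finset (Subgroup G)) := Fintype.ofFinite _
  obtain ⟨⟨-, -, hZD, hDL, hD, hTL, hT, -, -⟩, hcj, -⟩ := hFZC3 p M hS G D x θ χ hL.lo P hP
  have hcom := hL.lo.rt.com
  have hFN := hFNC3 p M hS G D x θ χ hL P hP hSg
  clear hSg
  generalize hLe : cz P = L at *
  generalize hZe : Zc D L = Z at *
  have hTZ : TT M D θ ≤ nz Z := by
    intro t ht
    refine Subgroup.mem_normalizer_iff.2 fun y => ?_
    have h1 := (hcj t (hTL ht)).2.1
    have h2 : t * y * t⁻¹ ∈ cjS t Z ↔ y ∈ Z := by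
      rw [mem_cjS]
      have h3 : t⁻¹ * (t * y * t⁻¹) * t = y := by group
      rw [h3]
    rw [h1] at h2
    exact h2.symm
  set f : Subgroup G → ℤ := fun U => (fZ M D θ Z U : ℤ) with hf
  have htg := hFTG3 G p D (TT M D θ) Z hD hZD hT hTZ f
  rw [FFS3_finsum (fun C : Finset (Subgroup G) => PCh p D Z C ∧ C ≠ {Z})] at htg
  rw [FFS3_finsum (fun C : Finset (Subgroup G) => NCh p L Z C ∧ C ≠ {Z}), Finset.mul_sum]
  -- one chain
  have h1 : ∀ C : Finset (Subgroup G), (Nat.card (TT M D θ) : ℤ) * (if NCh p L Z C ∧ C ≠ {Z} then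
      (-1) ^ (C.card + 1) * ((Nat.card ↥(L ⊓ nrm C) : ℤ) * (BZ M L θ Z (L ⊓ nrm C)).ncard) else 0) =
      ∑ g : G, (Nat.card (cz D) : ℤ) * (if (NCh p L Z C ∧ C ≠ {Z}) ∧ (g ∈ L ∧ ∀ Q ∈ C, cjS g Q ≤ D) then
        (-1) ^ (C.card + 1) * f (TT M D θ ⊓ cjS g (L ⊓ nrm C)) else 0) := by
    intro C
    by_cases hC : NCh p L Z C ∧ C ≠ {Z}
    · rw [if_pos hC]
      have h2 := (hFN C hC.1 hC.2).1
      rw [FFS3_finsum (fun g : G => g ∈ L ∧ ∀ Q ∈ C, cjS g Q ≤ D)] at h2
      have h3 := congrArg (fun n : ℕ => (n : ℤ)) h2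
      have h4 : ∀ g : G, (((if g ∈ L ∧ ∀ Q ∈ C, cjS g Q ≤ D then
          fZ M D θ Z (TT M D θ ⊓ cjS g (L ⊓ nrm C)) else 0 : ℕ)) : ℤ) =
          if g ∈ L ∧ ∀ Q ∈ C, cjS g Q ≤ D then f (TT M D θ ⊓ cjS g (L ⊓ nrm C)) else 0 := by
        intro g
        split_ifs with h5
        · rfl
        · rfl
      simp only [Nat.cast_mul, Nat.cast_sum, h4] at h3
      calc (Nat.card (TT M D θ) : ℤ) * ((-1) ^ (C.card + 1) * ((Nat.card ↥(L ⊓ nrm C) : ℤ) *
              (BZ M L θ Z (L ⊓ nrm C)).ncard))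
          = (-1) ^ (C.card + 1) * ((Nat.card (TT M D θ) : ℤ) * ((Nat.card ↥(L ⊓ nrm C) : ℤ) *
              (BZ M L θ Z (L ⊓ nrm C)).ncard)) := by ring
        _ = (-1) ^ (C.card + 1) * ((Nat.card (cz D) : ℤ) * ∑ g : G, if g ∈ L ∧ ∀ Q ∈ C, cjS g Q ≤ D then
              f (TT M D θ ⊓ cjS g (L ⊓ nrm C)) else 0) := by rw [h3]
        _ = _ := by
          rw [← mul_assoc, Finset.mul_sum]
          refine Finset.sum_congr rfl fun g _ => ?_
          by_cases h6 : g ∈ L ∧ ∀ Q ∈ C, cjS g Q ≤ D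
          · rw [if_pos h6, if_pos ⟨hC, h6⟩]
            ring
          · rw [if_neg h6, if_neg (fun h7 => h6 h7.2), mul_zero, mul_zero]
    · rw [if_neg hC, mul_zero]
      symm
      refine Finset.sum_eq_zero fun g _ => ?_
      rw [if_neg (fun h7 => hC h7.1), mul_zero]
  rw [Finset.sum_congr rfl fun C _ => h1 C, Finset.sum_comm]
  -- one group element
  have h8 : ∀ g : G, ∑ C : Finset (Subgroup G), (Nat.card (cz D) : ℤ) *
      (if (NCh p L Z C ∧ C ≠ {Z}) ∧ (g ∈ L ∧ ∀ Q ∈ C, cjS g Q ≤ D) then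
        (-1) ^ (C.card + 1) * f (TT M D θ ⊓ cjS g (L ⊓ nrm C)) else 0) =
      if g ∈ L then (Nat.card (cz D) : ℤ) * (- f (TT M D θ)) else 0 := by
    intro g
    by_cases hg : g ∈ L
    · rw [if_pos hg]
      have hgi : g⁻¹ ∈ L := L.inv_mem hg
      have hZg := (hcj g hg).2.1
      have hZgi := (hcj g⁻¹ hgi).2.1
      have hLgi := (hcj g⁻¹ hgi).2.2
      rw [← Finset.mul_sum, ← htg]
      congr 1
      refine Finset.sum_nbij' (fun C => chainMap (MulAut.conj g) C) (fun C => chainMap (MulAut.conj g⁻¹) C)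
        (fun _ _ => Finset.mem_univ _) (fun _ _ => Finset.mem_univ _) ?_ ?_ ?_
      · intro C _
        exact FFS3_inv hNM g⁻¹ g (inv_mul_cancel g) C
      · intro C _
        exact FFS3_inv hNM g g⁻¹ (mul_inv_cancel g) C
      · intro C _
        have hiff : ((NCh p L Z C ∧ C ≠ {Z}) ∧ (g ∈ L ∧ ∀ Q ∈ C, cjS g Q ≤ D)) ↔
            (PCh p D Z (chainMap (MulAut.conj g) C) ∧ chainMap (MulAut.conj g) C ≠ {Z}) := by
          constructor
          · rintro ⟨⟨h9, h10⟩, -, h11⟩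
            refine ⟨FFS3_fwd p D L Z g hZg C h9 h11, ?_⟩
            intro h12
            apply h10
            rw [← FFS3_inv hNM g⁻¹ g (inv_mul_cancel g) C, h12]
            exact FFS3_map_sing _ _ hZgi
          · rintro ⟨h9, h10⟩
            have h11 := FFS3_bwd p D L Z hcom hDL g⁻¹ g (mul_inv_cancel g) hZgi hLgi _ h9
            rw [FFS3_inv hNM g⁻¹ g (inv_mul_cancel g) C] at h11
            refine ⟨⟨h11.1, ?_⟩, hg, h11.2⟩
            intro h12
            apply h10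
            rw [h12]
            exact FFS3_map_sing _ _ hZg
        have hinf : TT M D θ ⊓ cjS g (L ⊓ nrm C) = TT M D θ ⊓ (nrm C).map (MulAut.conj g).toMonoidHom := by
          ext y
          rw [Subgroup.mem_inf, Subgroup.mem_inf]
          constructor
          · rintro ⟨h12, h13⟩
            rw [mem_cjS] at h13
            exact ⟨h12, mem_cjS.2 h13.2⟩
          · rintro ⟨h12, h13⟩
            refine ⟨h12, mem_cjS.2 ⟨?_, mem_cjS.1 h13⟩⟩
            exact L.mul_mem (L.mul_mem hgi (hTL h12)) hg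
        by_cases hc : (NCh p L Z C ∧ C ≠ {Z}) ∧ (g ∈ L ∧ ∀ Q ∈ C, cjS g Q ≤ D)
        · rw [if_pos hc, if_pos (hiff.1 hc), (hNM G (MulAut.conj g) C).2.2.1, (hNM G (MulAut.conj g) C).2.2.2.1, hinf]
        · rw [if_neg hc, if_neg (fun h9 => hc (hiff.2 h9))]
    · rw [if_neg hg]
      refine Finset.sum_eq_zero fun C _ => ?_
      rw [if_neg (fun h9 => hg h9.2.1), mul_zero]
  rw [Finset.sum_congr rfl fun g _ => h8 g, ← Finset.sum_filter, Finset.sum_const, nsmul_eq_mul]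
  have h9 : (Finset.univ.filter fun g : G => g ∈ L).card = Nat.card L := by
    rw [Nat.card_eq_fintype_card, Fintype.card_subtype]
  rw [h9]
  ring

end Pool.Agent.FI3
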